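import Pool.Agent.Helper69.MF.StA

set_option autoImplicit false

/-!
Module CRS of project MF (MP_9583f0_gt): cutting off the corner decreases the area.
-/

open Set Topology Filter MeasureTheory

namespace Pool.Agent.Helper36.MF

open Pool.Agent.Helper31.CY Pool.Agent.Helper69.MF

theorem dt_inner (x y : E3) : dt x y = inner ℝ x y := by
  simp only [dt, PiLp.inner_apply, Fin.sum_univ_three, RCLike.inner_apply, conj_trivial]
  ring

theorem dt_add (x y z : E3) : dt (x + y) z = dt x z + dt y z := by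
  simp only [dt_inner, inner_add_left]

theorem dt_smul (a : ℝ) (x z : E3) : dt (a • x) z = a * dt x z := by
  simp only [dt_inner, real_inner_smul_left]

theorem dt_sub (x y z : E3) : dt (x - y) z = dt x z - dt y z := by
  simp only [dt_inner, inner_sub_left]

theorem dt_comm (x y : E3) : dt x y = dt y x := by
  simp only [dt]
  ring

theorem norm_of_dt {x : E3} (h : dt x x = 1) : ‖x‖ = 1 := by
  rw [dt_inner, real_inner_self_eq_norm_sq] at h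
  have h1 : 0 ≤ ‖x‖ := norm_nonneg x
  nlinarith

theorem abs_dt_le {x y : E3} (h : dt y y = 1) : |dt x y| ≤ ‖x‖ := by
  have h1 := abs_real_inner_le_norm x y
  rw [norm_of_dt h, mul_one, ← dt_inner] at h1
  exact h1

theorem dt_cont (τ p : E3) : Continuous fun x : E3 => dt (x - p) τ := by
  unfold dt
  fun_prop

section

variable {p τ n k : E3} (hON : ON τ n k)

include hON

theorem dt_fr (a v w : ℝ) : dt (fr p τ n k a v w - p) τ = a ∧ dt (fr p τ n k a v w - p) n = v := by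
  obtain ⟨h1, h2, h3, h4, h5, h6⟩ := hON
  have h7 : fr p τ n k a v w - p = a • τ + v • n + w • k := by
    unfold fr
    abel
  rw [h7]
  constructor
  · rw [dt_add, dt_add, dt_smul, dt_smul, dt_smul, h1, dt_comm n τ, h4, dt_comm k τ, h5]
    ring
  · rw [dt_add, dt_add, dt_smul, dt_smul, dt_smul, h2, h4, dt_comm k n, h6]
    ring

end

/-- graphs -/
def Gr (p τ n k : E3) (u : ℝ → ℝ → ℝ) (A : Set (ℝ × ℝ)) : Set E3 :=
  (fun q : ℝ × ℝ => fr p τ n k q.1 q.2 (u q.1 q.2)) '' A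

/-- area of the projection -/
noncomputable def mu (τ n : E3) (A : Set (ℝ × ℝ)) : ENNReal :=
  ar ((fun q : ℝ × ℝ => q.1 • τ + q.2 • n) '' A)

theorem ar_mono {S S' : Set E3} (h : S ⊆ S') : ar S ≤ ar S' := measure_mono h

theorem ar_add (w : E3) (S : Set E3) : ar ((fun x => w + x) '' S) = ar S := by
  have h := (IsometryEquiv.addLeft w).hausdorffMeasure_image 2 S
  exact h

/-- comparison of two graphs whose difference has a small Lipschitz constant -/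
theorem gr_lip {p τ n k : E3} (hON : ON τ n k) (u1 u2 : ℝ → ℝ → ℝ) (A : Set (ℝ × ℝ)) (ε : ℝ)
    (hε : 0 ≤ ε) (h : ∀ q ∈ A, ∀ q' ∈ A, |(u2 q.1 q.2 - u1 q.1 q.2) - (u2 q'.1 q'.2 - u1 q'.1 q'.2)| ≤
      ε * (|q.1 - q'.1| + |q.2 - q'.2|)) :
    ar (Gr p τ n k u2 A) ≤ ENNReal.ofReal ((1 + 2 * ε) ^ 2) * ar (Gr p τ n k u1 A) := by
  let T : E3 → E3 := fun x => x + (u2 (dt (x - p) τ) (dt (x - p) n) -
    u1 (dt (x - p) τ) (dt (x - p) n)) • k
  have hT : ∀ q : ℝ × ℝ, T (fr p τ n k q.1 q.2 (u1 q.1 q.2)) = fr p τ n k q.1 q.2 (u2 q.1 q.2) := by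
    intro q
    obtain ⟨h1, h2⟩ := dt_fr (p := p) hON q.1 q.2 (u1 q.1 q.2)
    simp only [T, h1, h2]
    unfold fr
    rw [sub_smul]
    abel
  have himg : T '' (Gr p τ n k u1 A) = Gr p τ n k u2 A := by
    unfold Gr
    rw [image_image]
    exact image_congr fun q _ => hT q
  have hk : ‖k‖ = 1 := norm_of_dt hON.2.2.1
  have hL : LipschitzOnWith (Real.toNNReal (1 + 2 * ε)) T (Gr p τ n k u1 A) := by
    refine LipschitzOnWith.of_dist_le_mul ?_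
    rintro x ⟨q, hq, rfl⟩ y ⟨q', hq', rfl⟩
    obtain ⟨h1, h2⟩ := dt_fr (p := p) hON q.1 q.2 (u1 q.1 q.2)
    obtain ⟨h3, h4⟩ := dt_fr (p := p) hON q'.1 q'.2 (u1 q'.1 q'.2)
    simp only at h1 h2 h3 h4 ⊢
    obtain ⟨x, hx⟩ : ∃ x, x = fr p τ n k q.1 q.2 (u1 q.1 q.2) := ⟨_, rfl⟩
    obtain ⟨y, hy⟩ : ∃ y, y = fr p τ n k q'.1 q'.2 (u1 q'.1 q'.2) := ⟨_, rfl⟩
    rw [← hx] at h1 h2 ⊢
    rw [← hy] at h3 h4 ⊢
    rw [Real.coe_toNNReal _ (by linarith), dist_eq_norm, dist_eq_norm]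
    have h5 : T x - T y = (x - y) + ((u2 q.1 q.2 - u1 q.1 q.2) - (u2 q'.1 q'.2 - u1 q'.1 q'.2)) • k := by
      simp only [T, h1, h2, h3, h4]
      rw [sub_smul (u2 q.1 q.2 - u1 q.1 q.2)]
      abel
    rw [h5]
    have h6 : |q.1 - q'.1| ≤ ‖x - y‖ := by
      have : q.1 - q'.1 = dt (x - y) τ := by
        rw [← h1, ← h3, ← dt_sub]
        congr 1
        abel
      rw [this]
      exact abs_dt_le hON.1
    have h7 : |q.2 - q'.2| ≤ ‖x - y‖ := by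
      have : q.2 - q'.2 = dt (x - y) n := by
        rw [← h2, ← h4, ← dt_sub]
        congr 1
        abel
      rw [this]
      exact abs_dt_le hON.2.1
    calc ‖(x - y) + ((u2 q.1 q.2 - u1 q.1 q.2) - (u2 q'.1 q'.2 - u1 q'.1 q'.2)) • k‖
        ≤ ‖x - y‖ + ‖((u2 q.1 q.2 - u1 q.1 q.2) - (u2 q'.1 q'.2 - u1 q'.1 q'.2)) • k‖ := norm_add_le _ _
      _ = ‖x - y‖ + |(u2 q.1 q.2 - u1 q.1 q.2) - (u2 q'.1 q'.2 - u1 q'.1 q'.2)| := by
          rw [norm_smul, hk, mul_one, Real.norm_eq_abs]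
      _ ≤ ‖x - y‖ + ε * (|q.1 - q'.1| + |q.2 - q'.2|) := by
          have := h q hq q' hq'
          linarith
      _ ≤ ‖x - y‖ + ε * (‖x - y‖ + ‖x - y‖) := by
          have := mul_le_mul_of_nonneg_left (add_le_add h6 h7) hε
          linarith
      _ = (1 + 2 * ε) * ‖x - y‖ := by ring
  have h8 := hL.hausdorffMeasure_image_le (d := 2) (by norm_num)
  rw [himg] at h8
  have h9 : ((Real.toNNReal (1 + 2 * ε) : NNReal) : ENNReal) ^ (2 : ℝ) =
      ENNReal.ofReal ((1 + 2 * ε) ^ 2) := by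
    rw [ENNReal.ofReal_pow (by linarith)]
    exact ENNReal.rpow_two _
  rw [h9] at h8
  exact h8

/-- area of graphs of affine functions -/
theorem gr_aff (hLIN : StLIN) {p τ n k : E3} (hON : ON τ n k) (u : ℝ → ℝ → ℝ) (A : Set (ℝ × ℝ))
    (hA : MeasurableSet A) (α β γ : ℝ) (hu : ∀ q ∈ A, u q.1 q.2 = α * q.1 + β * q.2 + γ) :
    ar (Gr p τ n k u A) = ENNReal.ofReal (Real.sqrt (1 + α ^ 2 + β ^ 2)) * mu τ n A := by
  have h1 : Gr p τ n k u A = (fun x => (p + γ • k) + x) ''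
      ((fun q : ℝ × ℝ => q.1 • τ + q.2 • n + (α * q.1 + β * q.2) • k) '' A) := by
    unfold Gr
    rw [image_image]
    refine image_congr fun q hq => ?_
    rw [hu q hq]
    unfold fr
    rw [add_smul _ γ]
    abel
  rw [h1, ar_add, (hLIN τ n k α β A hON hA).1]
  rfl

theorem mu_mono (τ n : E3) {A A' : Set (ℝ × ℝ)} (h : A ⊆ A') : mu τ n A ≤ mu τ n A' :=
  ar_mono (image_mono h)

theorem mu_union (τ n : E3) (A A' : Set (ℝ × ℝ)) : mu τ n (A ∪ A') ≤ mu τ n A + mu τ n A' := by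
  unfold mu
  rw [image_union]
  exact measure_union_le _ _

theorem gr_mono {p τ n k : E3} (u : ℝ → ℝ → ℝ) {A A' : Set (ℝ × ℝ)} (h : A ⊆ A') :
    ar (Gr p τ n k u A) ≤ ar (Gr p τ n k u A') := ar_mono (image_mono h)

theorem gr_union {p τ n k : E3} (u : ℝ → ℝ → ℝ) (A A' : Set (ℝ × ℝ)) :
    ar (Gr p τ n k u (A ∪ A')) ≤ ar (Gr p τ n k u A) + ar (Gr p τ n k u A') := by
  unfold Gr
  rw [image_union]
  exact measure_union_le _ _

theorem zero_of_mul {m : ENNReal} (hm : m < ⊤) (h : m = ENNReal.ofReal (Real.sqrt 2) * m) :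
    m = 0 := by
  by_contra h0
  have h1 : (ENNReal.ofReal (Real.sqrt 2)) * m = 1 * m := by rw [one_mul]; exact h.symm
  have h2 := (ENNReal.mul_left_inj h0 hm.ne).1 h1
  rw [ENNReal.ofReal_eq_one] at h2
  have h3 : Real.sqrt 2 ^ 2 = 2 := Real.sq_sqrt (by norm_num)
  rw [h2] at h3
  norm_num at h3

theorem mu_line_v (hLIN : StLIN) {τ n k : E3} (hON : ON τ n k) (A : Set (ℝ × ℝ))
    (hA : MeasurableSet A) (hb : Bornology.IsBounded A) (h : ∀ q ∈ A, q.2 = 0) : mu τ n A = 0 := by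
  obtain ⟨h1, -, h3⟩ := hLIN τ n k 0 1 A hON hA
  refine zero_of_mul (h3 hb) ?_
  have h4 : (fun q : ℝ × ℝ => q.1 • τ + q.2 • n + ((0 : ℝ) * q.1 + 1 * q.2) • k) '' A =
      (fun q : ℝ × ℝ => q.1 • τ + q.2 • n) '' A := by
    refine image_congr fun q hq => ?_
    rw [h q hq]
    simp
  rw [h4] at h1
  have h5 : (1 : ℝ) + 0 ^ 2 + 1 ^ 2 = 2 := by norm_num
  rw [h5] at h1
  exact h1

theorem mu_line_a (hLIN : StLIN) {τ n k : E3} (hON : ON τ n k) (A : Set (ℝ × ℝ))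
    (hA : MeasurableSet A) (hb : Bornology.IsBounded A) (h : ∀ q ∈ A, q.1 = 0) : mu τ n A = 0 := by
  obtain ⟨h1, -, h3⟩ := hLIN τ n k 1 0 A hON hA
  refine zero_of_mul (h3 hb) ?_
  have h4 : (fun q : ℝ × ℝ => q.1 • τ + q.2 • n + ((1 : ℝ) * q.1 + 0 * q.2) • k) '' A =
      (fun q : ℝ × ℝ => q.1 • τ + q.2 • n) '' A := by
    refine image_congr fun q hq => ?_
    rw [h q hq]
    simp
  rw [h4] at h1
  have h5 : (1 : ℝ) + 1 ^ 2 + 0 ^ 2 = 2 := by norm_num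
  rw [h5] at h1
  exact h1

theorem split_ar (p e : E3) (X X1 X2 : Set E3) (h1 : X1 ⊆ X) (h2 : X2 ⊆ X)
    (h3 : ∀ x ∈ X1, 0 < dt (x - p) e) (h4 : ∀ x ∈ X2, dt (x - p) e ≤ 0) :
    ar X1 + ar X2 ≤ ar X := by
  have hm : MeasurableSet {x : E3 | 0 < dt (x - p) e} :=
    (isOpen_lt continuous_const (dt_cont e p)).measurableSet
  unfold ar
  rw [← measure_inter_add_sdiff X hm]
  refine add_le_add (measure_mono fun x hx => ⟨h1 hx, h3 x hx⟩) (measure_mono fun x hx =>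
    ⟨h2 hx, fun h => ?_⟩)
  exact absurd h (not_lt.2 (h4 x hx))

theorem dt_L0 {τ n k : E3} (hON : ON τ n k) (a v : ℝ) :
    dt (a • τ + v • n - 0) τ = a ∧ dt (a • τ + v • n - 0) n = v := by
  obtain ⟨h1, h2, h3, h4, h5, h6⟩ := hON
  rw [sub_zero, dt_add, dt_smul, dt_smul, dt_add, dt_smul, dt_smul, h1, h2, h4, dt_comm n τ, h4]
  constructor <;> ring

theorem mu_quad (hLIN : StLIN) {τ n k : E3} (hON : ON τ n k) (C Q Q' : Set (ℝ × ℝ))
    (mC : MeasurableSet C) (bC : Bornology.IsBounded C)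
    (hQ : ∀ q ∈ Q, q ∈ C ∧ 0 ≤ q.1) (hQ' : ∀ q ∈ Q', q ∈ C ∧ q.1 ≤ 0) :
    mu τ n Q + mu τ n Q' ≤ mu τ n (C ∩ {q | q.2 ≠ 0}) := by
  have z1 : mu τ n (C ∩ {q | q.2 = 0}) = 0 := by
    refine mu_line_v hLIN hON _ (mC.inter ?_) (bC.subset inter_subset_left) (fun q hq => hq.2)
    exact (isClosed_eq continuous_snd continuous_const).measurableSet
  have z2 : mu τ n (C ∩ {q | q.1 = 0}) = 0 := by
    refine mu_line_a hLIN hON _ (mC.inter ?_) (bC.subset inter_subset_left) (fun q hq => hq.2)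
    exact (isClosed_eq continuous_fst continuous_const).measurableSet
  have key : ∀ (R W : Set (ℝ × ℝ)), (∀ q ∈ R, q ∈ W ∨ q ∈ C ∩ {q | q.2 = 0} ∨ q ∈ C ∩ {q | q.1 = 0}) →
      mu τ n R ≤ mu τ n W := by
    intro R W h
    calc mu τ n R ≤ mu τ n (W ∪ (C ∩ {q | q.2 = 0} ∪ C ∩ {q | q.1 = 0})) := mu_mono τ n h
      _ ≤ mu τ n W + (mu τ n (C ∩ {q | q.2 = 0}) + mu τ n (C ∩ {q | q.1 = 0})) :=
          (mu_union τ n _ _).trans (add_le_add le_rfl (mu_union τ n _ _))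
      _ = mu τ n W := by rw [z1, z2, add_zero, add_zero]
  have k1 : mu τ n Q ≤ mu τ n ((C ∩ {q | q.2 ≠ 0}) ∩ {q | 0 < q.1}) := by
    refine key _ _ fun q hq => ?_
    obtain ⟨h1, h2⟩ := hQ q hq
    by_cases h3 : q.2 = 0
    · exact Or.inr (Or.inl ⟨h1, h3⟩)
    · rcases eq_or_lt_of_le h2 with h4 | h4
      · exact Or.inr (Or.inr ⟨h1, h4.symm⟩)
      · exact Or.inl ⟨⟨h1, h3⟩, h4⟩
  have k2 : mu τ n Q' ≤ mu τ n ((C ∩ {q | q.2 ≠ 0}) ∩ {q | q.1 < 0}) := by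
    refine key _ _ fun q hq => ?_
    obtain ⟨h1, h2⟩ := hQ' q hq
    by_cases h3 : q.2 = 0
    · exact Or.inr (Or.inl ⟨h1, h3⟩)
    · rcases eq_or_lt_of_le h2 with h4 | h4
      · exact Or.inr (Or.inr ⟨h1, h4⟩)
      · exact Or.inl ⟨⟨h1, h3⟩, h4⟩
  refine (add_le_add k1 k2).trans ?_
  refine split_ar 0 τ _ _ _ (image_mono inter_subset_left) (image_mono inter_subset_left) ?_ ?_
  · rintro x ⟨q, hq, rfl⟩
    rw [(dt_L0 hON q.1 q.2).1]
    exact hq.2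
  · rintro x ⟨q, hq, rfl⟩
    rw [(dt_L0 hON q.1 q.2).1]
    exact le_of_lt hq.2

theorem core (hLIN : StLIN) (c ε : ℝ) (hc : 0 < c) (hε : 0 < ε)
    (hK : (1 + 2 * ε) ^ 4 * Real.sqrt (1 + c ^ 2 / 2) < Real.sqrt (1 + c ^ 2))
    (p τ n k : E3) (ρ : ℝ) (g : ℝ → ℝ → ℝ) (hON : ON τ n k) (hρ : 0 < ρ) (hg : Clo c ε ρ g) :
    ar (G2 p τ n k c ρ g) < ar (G1 p τ n k ρ g) ∧ ar (G1 p τ n k ρ g) < ⊤ := by
  obtain ⟨B, hB⟩ : ∃ B : Set (ℝ × ℝ), B = {q | |q.1| + |q.2| < ρ} := ⟨_, rfl⟩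
  have oB : IsOpen B := by
    rw [hB]
    exact isOpen_lt (by fun_prop) continuous_const
  have bB : Bornology.IsBounded B := by
    refine (Metric.isBounded_closedBall (x := (0 : ℝ × ℝ)) (r := ρ)).subset ?_
    intro q hq
    rw [hB] at hq
    have hq' : |q.1| + |q.2| < ρ := hq
    have a1 := abs_nonneg q.1
    have a2 := abs_nonneg q.2
    rw [mem_closedBall_zero_iff, Prod.norm_def]
    exact max_le (by rw [Real.norm_eq_abs]; linarith) (by rw [Real.norm_eq_abs]; linarith)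
  have hBm : ∀ q ∈ B, |q.1| ≤ ρ ∧ |q.2| ≤ ρ := by
    intro q hq
    rw [hB] at hq
    have hq' : |q.1| + |q.2| < ρ := hq
    have a1 := abs_nonneg q.1
    have a2 := abs_nonneg q.2
    exact ⟨by linarith, by linarith⟩
  have eG1 : G1 p τ n k ρ g = Gr p τ n k (fun a v => g a |v|) B := by
    unfold G1 Gr
    rw [hB]
    ext x
    constructor
    · rintro ⟨a, v, h, rfl⟩
      exact ⟨(a, v), h, rfl⟩
    · rintro ⟨⟨a, v⟩, h, rfl⟩
      exact ⟨a, v, h, rfl⟩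
  have eG2 : G2 p τ n k c ρ g =
      Gr p τ n k (fun a v => g a |v| + c / 2 * (ρ - |a| - |v|)) B := by
    unfold G2 Gr
    rw [hB]
    ext x
    constructor
    · rintro ⟨a, v, h, rfl⟩
      exact ⟨(a, v), h, rfl⟩
    · rintro ⟨⟨a, v⟩, h, rfl⟩
      exact ⟨a, v, h, rfl⟩
  -- the Lipschitz condition
  have hη : ∀ q ∈ B, ∀ q' ∈ B, |(g q.1 |q.2| - c * |q.2|) - (g q'.1 |q'.2| - c * |q'.2|)| ≤
      ε * (|q.1 - q'.1| + |q.2 - q'.2|) := by
    intro q hq q' hq'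
    obtain ⟨a1, a2⟩ := hBm q hq
    obtain ⟨a3, a4⟩ := hBm q' hq'
    have h1 := hg.2 q.1 |q.2| q'.1 |q'.2| a1 (by rw [abs_abs]; exact a2) a3 (by rw [abs_abs]; exact a4)
    have h2 := abs_abs_sub_abs_le q.2 q'.2
    have h3 := mul_le_mul_of_nonneg_left (add_le_add (le_refl |q.1 - q'.1|) h2) hε.le
    exact h1.trans h3
  obtain ⟨M, hM⟩ : ∃ M, M = mu τ n (B ∩ {q | 0 < q.2}) + mu τ n (B ∩ {q | q.2 < 0}) := ⟨_, rfl⟩
  have oBp : IsOpen (B ∩ {q : ℝ × ℝ | 0 < q.2}) := oB.inter (isOpen_lt continuous_const continuous_snd)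
  have oBm : IsOpen (B ∩ {q : ℝ × ℝ | q.2 < 0}) := oB.inter (isOpen_lt continuous_snd continuous_const)
  have hM0 : M ≠ 0 := by
    rw [hM]
    have h1 := (hLIN τ n k 0 0 _ hON oBp.measurableSet).2.1 oBp ⟨(0, ρ / 2), by
      rw [hB]
      refine ⟨?_, ?_⟩
      · simp only [mem_ofPred_eq, abs_zero, abs_of_pos (half_pos hρ)]
        linarith
      · simp only [mem_ofPred_eq]
        linarith⟩
    exact (lt_of_lt_of_le h1 le_self_add).ne'
  have hMt : M ≠ ⊤ := by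
    rw [hM]
    have h1 := (hLIN τ n k 0 0 _ hON oBp.measurableSet).2.2 (bB.subset inter_subset_left)
    have h2 := (hLIN τ n k 0 0 _ hON oBm.measurableSet).2.2 (bB.subset inter_subset_left)
    exact (ENNReal.add_lt_top.2 ⟨h1, h2⟩).ne
  -- the closed quadrants
  have mR1 : MeasurableSet {q : ℝ × ℝ | 0 ≤ q.1} := (isClosed_le continuous_const continuous_fst).measurableSet
  have mR2 : MeasurableSet {q : ℝ × ℝ | q.1 ≤ 0} := (isClosed_le continuous_fst continuous_const).measurableSet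
  have mS1 : MeasurableSet {q : ℝ × ℝ | 0 ≤ q.2} := (isClosed_le continuous_const continuous_snd).measurableSet
  have mS2 : MeasurableSet {q : ℝ × ℝ | q.2 ≤ 0} := (isClosed_le continuous_snd continuous_const).measurableSet
  have mB := oB.measurableSet
  have q12 : mu τ n ((B ∩ {q | 0 ≤ q.2}) ∩ {q | 0 ≤ q.1}) + mu τ n ((B ∩ {q | 0 ≤ q.2}) ∩ {q | q.1 ≤ 0}) ≤
      mu τ n (B ∩ {q | 0 < q.2}) := by
    refine (mu_quad hLIN hON (B ∩ {q | 0 ≤ q.2}) _ _ (mB.inter mS1) (bB.subset inter_subset_left)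
      (fun q hq => hq) (fun q hq => hq)).trans (mu_mono τ n ?_)
    rintro q ⟨⟨h1, h2⟩, h3⟩
    exact ⟨h1, lt_of_le_of_ne h2 (Ne.symm h3)⟩
  have q34 : mu τ n ((B ∩ {q | q.2 ≤ 0}) ∩ {q | 0 ≤ q.1}) + mu τ n ((B ∩ {q | q.2 ≤ 0}) ∩ {q | q.1 ≤ 0}) ≤
      mu τ n (B ∩ {q | q.2 < 0}) := by
    refine (mu_quad hLIN hON (B ∩ {q | q.2 ≤ 0}) _ _ (mB.inter mS2) (bB.subset inter_subset_left)
      (fun q hq => hq) (fun q hq => hq)).trans (mu_mono τ n ?_)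
    rintro q ⟨⟨h1, h2⟩, h3⟩
    exact ⟨h1, lt_of_le_of_ne h2 h3⟩
  -- (i)
  have hi : ENNReal.ofReal (Real.sqrt (1 + c ^ 2)) * M ≤ ar (Gr p τ n k (fun _ v => c * |v|) B) := by
    have e1 := gr_aff hLIN (p := p) hON (fun _ v => c * |v|) (B ∩ {q | 0 < q.2}) oBp.measurableSet 0 c 0
      (by
        rintro q ⟨-, hq⟩
        have hq' : 0 < q.2 := hq
        simp only [abs_of_pos hq']
        ring)
    have e2 := gr_aff hLIN (p := p) hON (fun _ v => c * |v|) (B ∩ {q | q.2 < 0}) oBm.measurableSet 0 (-c) 0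
      (by
        rintro q ⟨-, hq⟩
        have hq' : q.2 < 0 := hq
        simp only [abs_of_neg hq']
        ring)
    have s1 : (1 : ℝ) + 0 ^ 2 + c ^ 2 = 1 + c ^ 2 := by ring
    have s2 : (1 : ℝ) + 0 ^ 2 + (-c) ^ 2 = 1 + c ^ 2 := by ring
    rw [s1] at e1
    rw [s2] at e2
    rw [hM, mul_add, ← e1, ← e2]
    refine split_ar p n _ _ _ (image_mono inter_subset_left) (image_mono inter_subset_left) ?_ ?_
    · rintro x ⟨q, hq, rfl⟩
      rw [(dt_fr hON _ _ _).2]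
      exact hq.2
    · rintro x ⟨q, hq, rfl⟩
      rw [(dt_fr hON _ _ _).2]
      exact le_of_lt hq.2
  -- (ii)
  have hii : ar (Gr p τ n k (fun _ v => c * |v|) B) ≤
      ENNReal.ofReal ((1 + 2 * ε) ^ 2) * ar (G1 p τ n k ρ g) := by
    rw [eG1]
    refine gr_lip hON _ _ B ε hε.le ?_
    intro q hq q' hq'
    have h1 := hη q hq q' hq'
    rw [abs_sub_comm] at h1
    have h2 : (c * |q.2| - g q.1 |q.2|) - (c * |q'.2| - g q'.1 |q'.2|) =
        (g q'.1 |q'.2| - c * |q'.2|) - (g q.1 |q.2| - c * |q.2|) := by ring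
    rw [h2]
    exact h1
  -- (iii)
  have hiii : ar (G2 p τ n k c ρ g) ≤ ENNReal.ofReal ((1 + 2 * ε) ^ 2) *
      (ENNReal.ofReal (Real.sqrt (1 + c ^ 2 / 2)) * M) := by
    have h1 : ar (G2 p τ n k c ρ g) ≤ ENNReal.ofReal ((1 + 2 * ε) ^ 2) *
        ar (Gr p τ n k (fun a v => c * |v| + c / 2 * (ρ - |a| - |v|)) B) := by
      rw [eG2]
      refine gr_lip hON _ _ B ε hε.le ?_
      intro q hq q' hq'
      have h1 := hη q hq q' hq'
      have h2 : (g q.1 |q.2| + c / 2 * (ρ - |q.1| - |q.2|) - (c * |q.2| + c / 2 * (ρ - |q.1| - |q.2|))) -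
          (g q'.1 |q'.2| + c / 2 * (ρ - |q'.1| - |q'.2|) -
            (c * |q'.2| + c / 2 * (ρ - |q'.1| - |q'.2|))) =
          (g q.1 |q.2| - c * |q.2|) - (g q'.1 |q'.2| - c * |q'.2|) := by ring
      rw [h2]
      exact h1
    refine h1.trans (mul_le_mul_right ?_ _)
    have e1 := gr_aff hLIN (p := p) hON (fun a v => c * |v| + c / 2 * (ρ - |a| - |v|))
      ((B ∩ {q | 0 ≤ q.2}) ∩ {q | 0 ≤ q.1}) ((mB.inter mS1).inter mR1) (-(c / 2)) (c / 2) (c / 2 * ρ)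
      (by
        rintro q ⟨⟨-, h2⟩, h3⟩
        have h2' : 0 ≤ q.2 := h2
        have h3' : 0 ≤ q.1 := h3
        simp only [abs_of_nonneg h2', abs_of_nonneg h3']
        ring)
    have e2 := gr_aff hLIN (p := p) hON (fun a v => c * |v| + c / 2 * (ρ - |a| - |v|))
      ((B ∩ {q | 0 ≤ q.2}) ∩ {q | q.1 ≤ 0}) ((mB.inter mS1).inter mR2) (c / 2) (c / 2) (c / 2 * ρ)
      (by
        rintro q ⟨⟨-, h2⟩, h3⟩
        have h2' : 0 ≤ q.2 := h2
        have h3' : q.1 ≤ 0 := h3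
        simp only [abs_of_nonneg h2', abs_of_nonpos h3']
        ring)
    have e3 := gr_aff hLIN (p := p) hON (fun a v => c * |v| + c / 2 * (ρ - |a| - |v|))
      ((B ∩ {q | q.2 ≤ 0}) ∩ {q | 0 ≤ q.1}) ((mB.inter mS2).inter mR1) (-(c / 2)) (-(c / 2)) (c / 2 * ρ)
      (by
        rintro q ⟨⟨-, h2⟩, h3⟩
        have h2' : q.2 ≤ 0 := h2
        have h3' : 0 ≤ q.1 := h3
        simp only [abs_of_nonpos h2', abs_of_nonneg h3']
        ring)
    have e4 := gr_aff hLIN (p := p) hON (fun a v => c * |v| + c / 2 * (ρ - |a| - |v|))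
      ((B ∩ {q | q.2 ≤ 0}) ∩ {q | q.1 ≤ 0}) ((mB.inter mS2).inter mR2) (c / 2) (-(c / 2)) (c / 2 * ρ)
      (by
        rintro q ⟨⟨-, h2⟩, h3⟩
        have h2' : q.2 ≤ 0 := h2
        have h3' : q.1 ≤ 0 := h3
        simp only [abs_of_nonpos h2', abs_of_nonpos h3']
        ring)
    have s1 : (1 : ℝ) + (-(c / 2)) ^ 2 + (c / 2) ^ 2 = 1 + c ^ 2 / 2 := by ring
    have s2 : (1 : ℝ) + (c / 2) ^ 2 + (c / 2) ^ 2 = 1 + c ^ 2 / 2 := by ring
    have s3 : (1 : ℝ) + (-(c / 2)) ^ 2 + (-(c / 2)) ^ 2 = 1 + c ^ 2 / 2 := by ring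
    have s4 : (1 : ℝ) + (c / 2) ^ 2 + (-(c / 2)) ^ 2 = 1 + c ^ 2 / 2 := by ring
    rw [s1] at e1
    rw [s2] at e2
    rw [s3] at e3
    rw [s4] at e4
    have hcov : B ⊆ (((B ∩ {q | 0 ≤ q.2}) ∩ {q | 0 ≤ q.1}) ∪ ((B ∩ {q | 0 ≤ q.2}) ∩ {q | q.1 ≤ 0})) ∪
        (((B ∩ {q | q.2 ≤ 0}) ∩ {q | 0 ≤ q.1}) ∪ ((B ∩ {q | q.2 ≤ 0}) ∩ {q | q.1 ≤ 0})) := by
      intro q hq
      rcases le_total 0 q.2 with h2 | h2 <;> rcases le_total 0 q.1 with h1 | h1
      · exact Or.inl (Or.inl ⟨⟨hq, h2⟩, h1⟩)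
      · exact Or.inl (Or.inr ⟨⟨hq, h2⟩, h1⟩)
      · exact Or.inr (Or.inl ⟨⟨hq, h2⟩, h1⟩)
      · exact Or.inr (Or.inr ⟨⟨hq, h2⟩, h1⟩)
    have i1 := gr_mono (p := p) (τ := τ) (n := n) (k := k)
      (fun a v => c * |v| + c / 2 * (ρ - |a| - |v|)) hcov
    refine i1.trans ?_
    refine (gr_union _ _ _).trans ?_
    refine (add_le_add (gr_union _ _ _) (gr_union _ _ _)).trans ?_
    rw [e1, e2, e3, e4, ← mul_add, ← mul_add, ← mul_add, hM]
    exact mul_le_mul_right (add_le_add q12 q34) _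
  -- (iv)
  have hiv : ar (G1 p τ n k ρ g) < ⊤ := by
    have h1 : ar (G1 p τ n k ρ g) ≤ ENNReal.ofReal ((1 + 2 * ε) ^ 2) *
        ar (Gr p τ n k (fun _ v => c * |v|) B) := by
      rw [eG1]
      refine gr_lip hON _ _ B ε hε.le ?_
      intro q hq q' hq'
      exact hη q hq q' hq'
    refine lt_of_le_of_lt h1 (ENNReal.mul_lt_top ENNReal.ofReal_lt_top ?_)
    have e1 := gr_aff hLIN (p := p) hON (fun _ v => c * |v|) (B ∩ {q | 0 ≤ q.2}) (mB.inter mS1) 0 c 0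
      (by
        rintro q ⟨-, hq⟩
        have hq' : 0 ≤ q.2 := hq
        simp only [abs_of_nonneg hq']
        ring)
    have e2 := gr_aff hLIN (p := p) hON (fun _ v => c * |v|) (B ∩ {q | q.2 ≤ 0}) (mB.inter mS2) 0 (-c) 0
      (by
        rintro q ⟨-, hq⟩
        have hq' : q.2 ≤ 0 := hq
        simp only [abs_of_nonpos hq']
        ring)
    have f1 := (hLIN τ n k 0 0 _ hON (mB.inter mS1)).2.2 (bB.subset inter_subset_left)
    have f2 := (hLIN τ n k 0 0 _ hON (mB.inter mS2)).2.2 (bB.subset inter_subset_left)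
    have hcov : B ⊆ (B ∩ {q | 0 ≤ q.2}) ∪ (B ∩ {q | q.2 ≤ 0}) := by
      intro q hq
      rcases le_total 0 q.2 with h2 | h2
      · exact Or.inl ⟨hq, h2⟩
      · exact Or.inr ⟨hq, h2⟩
    refine lt_of_le_of_lt (gr_mono _ hcov) ?_
    refine lt_of_le_of_lt (gr_union _ _ _) ?_
    rw [e1, e2]
    exact ENNReal.add_lt_top.2 ⟨ENNReal.mul_lt_top ENNReal.ofReal_lt_top f1,
      ENNReal.mul_lt_top ENNReal.ofReal_lt_top f2⟩
  refine ⟨?_, hiv⟩
  by_contra hcon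
  have h1 : ENNReal.ofReal (Real.sqrt (1 + c ^ 2)) * M ≤
      ENNReal.ofReal ((1 + 2 * ε) ^ 4 * Real.sqrt (1 + c ^ 2 / 2)) * M := by
    calc ENNReal.ofReal (Real.sqrt (1 + c ^ 2)) * M ≤ _ := hi.trans hii
      _ ≤ ENNReal.ofReal ((1 + 2 * ε) ^ 2) * ar (G2 p τ n k c ρ g) :=
          mul_le_mul_right (not_lt.1 hcon) _
      _ ≤ ENNReal.ofReal ((1 + 2 * ε) ^ 2) * (ENNReal.ofReal ((1 + 2 * ε) ^ 2) *
            (ENNReal.ofReal (Real.sqrt (1 + c ^ 2 / 2)) * M)) := mul_le_mul_right hiii _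
      _ = _ := by
          rw [← mul_assoc, ← mul_assoc, ← ENNReal.ofReal_mul (by positivity),
            ← ENNReal.ofReal_mul (by positivity)]
          congr 2
          ring
  rw [ENNReal.mul_le_mul_iff_left hM0 hMt, ENNReal.ofReal_le_ofReal_iff (by positivity)] at h1
  exact absurd hK (not_lt.2 h1)

theorem hCRS : StLIN → StCRS := by
  intro hLIN c hc
  have hf : Continuous fun e : ℝ => (1 + 2 * e) ^ 4 * Real.sqrt (1 + c ^ 2 / 2) := by fun_prop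
  have h0 : (fun e : ℝ => (1 + 2 * e) ^ 4 * Real.sqrt (1 + c ^ 2 / 2)) 0 < Real.sqrt (1 + c ^ 2) := by
    simp only [mul_zero, add_zero, one_pow, one_mul]
    refine Real.sqrt_lt_sqrt (by positivity) ?_
    have : 0 < c ^ 2 := by positivity
    linarith
  have h1 : ∀ᶠ e in 𝓝 (0 : ℝ), (fun e : ℝ => (1 + 2 * e) ^ 4 * Real.sqrt (1 + c ^ 2 / 2)) e <
      Real.sqrt (1 + c ^ 2) := hf.continuousAt.eventually_lt_const h0
  obtain ⟨d, hd, h2⟩ := Metric.eventually_nhds_iff.1 h1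
  have hpos : 0 < min 1 (d / 2) := by positivity
  refine ⟨min 1 (d / 2), hpos, min_le_left _ _, ?_⟩
  intro p τ n k ρ g hON hρ hg
  refine core hLIN c _ hc hpos (h2 ?_) p τ n k ρ g hON hρ hg
  rw [Real.dist_eq, sub_zero, abs_of_pos hpos]
  exact lt_of_le_of_lt (min_le_right _ _) (by linarith)

end Pool.Agent.Helper36.MF
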